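import Pool.Agent.Y107.SDDefs

/-!
# Nilpotence, the Lefschetz standard conjecture, summands of cohomology groups: definitions
-/

set_option autoImplicit false

open CategoryTheory AlgebraicGeometry

universe u v w

namespace Pool.Agent.T2h14.MS

open Pool.Agent.H914 Pool.Agent.H914.VarClass Pool.Agent.H914.VarClass.Obj Pool.Agent.W492.BB
  Pool.Agent.W550.Corr Pool.Agent.TH133 Pool.Agent.Y107

variable {k : Type u} [Field k] {𝒱 : VarClass k}

/-- Every homologically trivial self-correspondence `γ` of degree zero of `X` is nilpotent: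
`γ ∘ ⋯ ∘ γ = 0`. -/
def NilHom {C : TheoryData.{u, v, 0} 𝒱 ℚ} {K : Type w} [Field K]
    (H : WeilTheoryData.{u, v, w} C K) (X : 𝒱.Obj) : Prop :=
  ∀ γ : C.A (X.prod X), C.Deg X.dim γ → H.cl γ = 0 → ∃ n : ℕ, corPow C γ n = 0

/-- The `i`-th projector of `p` acts as zero on `CH^j(X)`. -/
def Van (C : TheoryData.{u, v, 0} 𝒱 ℚ) {X : 𝒱.Obj} (p : ℕ → C.A (X.prod X)) (i j : ℕ) : Prop :=
  ∀ x : C.A X, C.Deg j x → C.act (p i) x = 0

/-- The `i`-th projector of `p` acts as zero on the homologically trivial cycles of codimension `j`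
on `X`. -/
def VanHom {C : TheoryData.{u, v, 0} 𝒱 ℚ} {K : Type w} [Field K]
    (H : WeilTheoryData.{u, v, w} C K) {X : 𝒱.Obj} (p : ℕ → C.A (X.prod X)) (i j : ℕ) : Prop :=
  ∀ x : C.A X, C.Deg j x → H.cl x = 0 → C.act (p i) x = 0

/-- The classical fact on divisors: correspondences of degree zero from `X` to `Z` acting as zero on
`H^1(X)` act as zero on the homologically trivial divisors of `X`, that is on `Pic^0(X) ⊗ ℚ`. -/
def PicardPairs {C : TheoryData.{u, v, 0} 𝒱 ℚ} {K : Type w} [Field K]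
    (H : WeilTheoryData.{u, v, w} C K) : Prop :=
  ∀ (X Z : 𝒱.Obj) (γ : C.A (X.prod Z)), C.Deg X.dim γ → Kills H γ 1 →
    ∀ z : C.A X, C.Deg 1 z → H.cl z = 0 → C.act γ z = 0

/-- `H^i(X)` is a direct summand, by algebraic correspondences, of a finite sum of groups
`H^(i - 2 c)(Z)(-c)` with `P Z c`: there are varieties `Z s`, integers `c s` with `P (Z s) (c s)`
and correspondences `a s : H^i(X) → H^(i - 2 c s)(Z s)`, `b s : H^(i - 2 c s)(Z s) → H^i(X)` such
that the sum of the `b s ∘ a s` is the identity on `H^i(X)`. -/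
def SummandOf {C : TheoryData.{u, v, 0} 𝒱 ℚ} {K : Type w} [Field K]
    (H : WeilTheoryData.{u, v, w} C K) (X : 𝒱.Obj) (i : ℕ) (P : 𝒱.Obj → ℤ → Prop) : Prop :=
  ∃ (n : ℕ) (Z : Fin n → 𝒱.Obj) (c : Fin n → ℤ) (a : ∀ s, C.A (X.prod (Z s)))
    (b : ∀ s, C.A ((Z s).prod X)), (∀ s, P (Z s) (c s)) ∧
    (∀ s, C.Deg ((X.dim : ℤ) - c s) (a s)) ∧ (∀ s, C.Deg (((Z s).dim : ℤ) + c s) (b s)) ∧
    ∀ x : H.A X, H.Deg i x → ∑ s, H.act (H.cl (b s)) (H.act (H.cl (a s)) x) = x

/-- The Lefschetz standard conjecture for `X` and the divisor class `D`: for `i ≤ d = dim X` the map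
`D^(d - i) : H^i(X) → H^(2 d - i)(X)` has an inverse which is induced by an algebraic correspondence. -/
def LefschetzStandard {C : TheoryData.{u, v, 0} 𝒱 ℚ} {K : Type w} [Field K]
    (H : WeilTheoryData.{u, v, w} C K) (X : 𝒱.Obj) (D : C.A X) : Prop :=
  ∀ i ≤ X.dim, ∃ θ : C.A (X.prod X), C.Deg i θ ∧
    (∀ x : H.A X, H.Deg i x → H.act (H.cl θ) (H.mul (H.cl (D ^ (X.dim - i))) x) = x) ∧
    ∀ y : H.A X, H.Deg (2 * X.dim - i) y → H.mul (H.cl (D ^ (X.dim - i))) (H.act (H.cl θ) y) = y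

end Pool.Agent.T2h14.MS
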