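import Pool.Agent.Q73.LS.Murre
import Pool.Agent.T2h14.MS.Defs

/-!
# Chow-Kunneth decompositions and nilpotence

If the homologically trivial self-correspondences of degree zero of `X` are nilpotent, then the
vanishing of the action of the `i`-th projector on `CH^j(X)`, or on the homologically trivial cycles,
does not depend on the Chow-Kunneth decomposition.
-/

set_option autoImplicit false

open CategoryTheory AlgebraicGeometry

universe u v w

namespace Pool.Agent.T2h14.MS

open Pool.Agent.H914 Pool.Agent.H914.VarClass Pool.Agent.H914.VarClass.Obj Pool.Agent.W492.BB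
  Pool.Agent.W550.Corr Pool.Agent.TH133 Pool.Agent.Y107 Pool.Agent.Q73.LS

set_option linter.unusedSectionVars false

variable {k : Type u} [Field k] {𝒱 : VarClass k}

/-- A self-correspondence as an element of the ring of self-correspondences. -/
def cr (C : TheoryData.{u, v, 0} 𝒱 ℚ) {X : 𝒱.Obj} (x : C.A (X.prod X)) : Cor C X := x

section weil

variable {C : TheoryData.{u, v, 0} 𝒱 ℚ} [hC : IsChowProj C] {K : Type w} [Field K]
  {H : WeilTheoryData.{u, v, w} C K} [hH : IsWeilProj H] {X Y Z : 𝒱.Obj}

include hC hH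

omit hH in
lemma corPow_eq (γ : Cor C X) (n : ℕ) : (corPow C (X := X) γ n : Cor C X) = γ ^ n := by
  induction n with
  | zero => rw [pow_zero]; rfl
  | succ n ih =>
    rw [pow_succ', ← ih]
    rfl

/-- Two Chow-Kunneth decompositions are conjugate. -/
lemma exists_conj (hN : NilHom H X) {p q : ℕ → C.A (X.prod X)} (hp : IsCK H X p)
    (hq : IsCK H X q) : ∃ u v : Cor C X, u ∈ cor0 C X ∧ v ∈ cor0 C X ∧ u * v = 1 ∧ v * u = 1 ∧
      ∀ i, u * cr C (p i) = cr C (q i) * u := by
  let P : ℕ → Cor C X := p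
  let Q : ℕ → Cor C X := q
  have hP : IsCK H X P := hp
  have hQ : IsCK H X Q := hq
  have hPm : ∀ i, P i ∈ cor0 C X := hP.deg
  have hQm : ∀ i, Q i ∈ cor0 C X := hQ.deg
  let u : Cor C X := ∑ i ∈ Finset.range (2 * X.dim + 1), Q i * P i
  have hu : u ∈ cor0 C X := (cor0 C X).sum_mem fun i _ => (cor0 C X).mul_mem (hQm i) (hPm i)
  have hout : ∀ i, i ∉ Finset.range (2 * X.dim + 1) → P i = 0 ∧ Q i = 0 := by
    intro i hi
    have h1 : 2 * X.dim < i := by
      by_contra h2
      exact hi (Finset.mem_range.2 (by omega))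
    exact ⟨hP.out i h1, hQ.out i h1⟩
  have huP : ∀ i, u * P i = Q i * P i := by
    intro i
    simp only [u]
    rw [Finset.sum_mul]
    by_cases hi : i ∈ Finset.range (2 * X.dim + 1)
    · rw [Finset.sum_eq_single i]
      · rw [mul_assoc, hP.mul_eq, if_pos rfl]
      · intro j _ hj
        rw [mul_assoc, hP.mul_eq, if_neg hj, mul_zero]
      · intro h; exact absurd hi h
    · rw [(hout i hi).1, mul_zero]
      exact Finset.sum_eq_zero fun j _ => mul_zero _
  have hQu : ∀ i, Q i * u = Q i * P i := by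
    intro i
    simp only [u]
    rw [Finset.mul_sum]
    by_cases hi : i ∈ Finset.range (2 * X.dim + 1)
    · rw [Finset.sum_eq_single i]
      · rw [← mul_assoc, hQ.mul_eq, if_pos rfl]
      · intro j _ hj
        rw [← mul_assoc, hQ.mul_eq, if_neg (Ne.symm hj), zero_mul]
      · intro h; exact absurd hi h
    · rw [(hout i hi).2, zero_mul]
      exact Finset.sum_eq_zero fun j _ => zero_mul _
  have hactu : ∀ a : H.A X, actH C X H u a = a := by
    have h0 : actH C X H u = LinearMap.id := by
      apply ext_gr H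
      intro m a ha
      rw [LinearMap.id_apply]
      have h1 : actH C X H u a = ∑ i ∈ Finset.range (2 * X.dim + 1),
          actH C X H (Q i) (actH C X H (P i) a) := by
        simp only [u]
        rw [map_sum, LinearMap.sum_apply]
        refine Finset.sum_congr rfl fun i _ => ?_
        rw [map_mul]; rfl
      have h2 : ∀ i ∈ Finset.range (2 * X.dim + 1),
          actH C X H (Q i) (actH C X H (P i) a) = actH C X H (P i) a := by
        intro i _
        rw [hP.actH_eq' i m ha]
        split_ifs with hm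
        · rw [hQ.actH_eq' i m ha, if_pos hm]
        · exact map_zero _
      rw [h1, Finset.sum_congr rfl h2, ← LinearMap.sum_apply, ← map_sum, hP.sum_eq, map_one]
      rfl
    intro a
    rw [h0, LinearMap.id_apply]
  have hNm : (1 - u) ∈ cor0 C X := (cor0 C X).sub_mem (cor0 C X).one_mem hu
  have hcl : H.cl (X := X.prod X) (1 - u : Cor C X) = 0 := by
    apply hom_zero_of_act H
    intro a
    have h1 : actH C X H (1 - u) a = 0 := by
      rw [map_sub, LinearMap.sub_apply, hactu, map_one]
      exact sub_self _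
    exact h1
  obtain ⟨n, hn⟩ := hN (1 - u : Cor C X) hNm hcl
  have hn' : (1 - u) ^ n = 0 := by rw [← corPow_eq]; exact hn
  let N0 : cor0 C X := ⟨1 - u, hNm⟩
  have hN0 : IsNilpotent N0 := ⟨n, Subtype.ext (by
    rw [Subalgebra.coe_pow]; exact hn')⟩
  obtain ⟨w, hw⟩ := hN0.isUnit_one_sub
  have hwu : ((w : cor0 C X) : Cor C X) = u := by
    rw [hw]
    change (1 : Cor C X) - (1 - u) = u
    abel
  refine ⟨u, ((w⁻¹ : (cor0 C X)ˣ) : cor0 C X), hu, Subtype.property _, ?_, ?_, fun i => ?_⟩
  · rw [← hwu]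
    have h1 : (w : cor0 C X) * ((w⁻¹ : (cor0 C X)ˣ) : cor0 C X) = 1 := w.mul_inv
    exact congrArg Subtype.val h1
  · rw [← hwu]
    have h1 : ((w⁻¹ : (cor0 C X)ˣ) : cor0 C X) * (w : cor0 C X) = 1 := w.inv_mul
    exact congrArg Subtype.val h1
  · exact (huP i).trans (hQu i).symm

lemma van_of_nil (hN : NilHom H X) {p q : ℕ → C.A (X.prod X)} (hp : IsCK H X p)
    (hq : IsCK H X q) {i j : ℕ} (h : Van C p i j) : Van C q i j := by
  obtain ⟨u, v, hu, hv, huv, hvu, hi⟩ := exists_conj hN hp hq
  intro x hx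
  have h1 : actC C X (cr C (q i)) x = 0 := by
    have h2 : x = actC C X u (actC C X v x) := by
      have h3 : actC C X (u * v) x = x := by rw [huv, map_one]; rfl
      rw [map_mul] at h3
      exact h3.symm
    rw [h2]
    have h4 : actC C X (cr C (q i)) (actC C X u (actC C X v x)) =
        actC C X ((cr C (q i)) * u) (actC C X v x) := by rw [map_mul]; rfl
    rw [h4, ← hi, map_mul]
    change actC C X u (actC C X (cr C (p i)) (actC C X v x)) = 0
    have h5 : actC C X v x ∈ C.gr X j := act_mem0 C hv hx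
    have h6 : actC C X (cr C (p i)) (actC C X v x) = 0 := h _ h5
    rw [h6, map_zero]
  exact h1

lemma vanHom_of_nil (hN : NilHom H X) {p q : ℕ → C.A (X.prod X)} (hp : IsCK H X p)
    (hq : IsCK H X q) {i j : ℕ} (h : VanHom H p i j) : VanHom H q i j := by
  obtain ⟨u, v, hu, hv, huv, hvu, hi⟩ := exists_conj hN hp hq
  intro x hx hx0
  have h1 : actC C X (cr C (q i)) x = 0 := by
    have h2 : x = actC C X u (actC C X v x) := by
      have h3 : actC C X (u * v) x = x := by rw [huv, map_one]; rfl
      rw [map_mul] at h3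
      exact h3.symm
    rw [h2]
    have h4 : actC C X (cr C (q i)) (actC C X u (actC C X v x)) =
        actC C X ((cr C (q i)) * u) (actC C X v x) := by rw [map_mul]; rfl
    rw [h4, ← hi, map_mul]
    change actC C X u (actC C X (cr C (p i)) (actC C X v x)) = 0
    have h5 : actC C X v x ∈ C.gr X j := act_mem0 C hv hx
    have h7 : H.cl (actC C X v x) = 0 := by
      rw [actC_apply, cl_act H, hx0]
      exact H.act_map_zero _
    have h6 : actC C X (cr C (p i)) (actC C X v x) = 0 := h _ h5 h7
    rw [h6, map_zero]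
  exact h1

/-! ### The filtrations -/

lemma F0_iff {p : ℕ → C.A (X.prod X)} (hp : IsCK H X p) (j : ℕ) :
    ckFil C p j 0 = C.gr X j ↔ ∀ i, 2 * j < i → Van C p i j := by
  constructor
  · intro h i hi x hx
    have h1 : x ∈ ckFil C p j 0 := by rw [h]; exact hx
    rw [hp.mem_ckFil] at h1
    exact h1.2 i (by omega)
  · intro h
    ext x
    rw [hp.mem_ckFil]
    exact ⟨fun h' => h'.1, fun hx => ⟨hx, fun i hi => h i (by omega) x hx⟩⟩

lemma F1_iff {p : ℕ → C.A (X.prod X)} (hp : IsCK H X p) (j : ℕ) :
    ckFil C p j (j + 1) = ⊥ ↔ ∀ i, i < j → Van C p i j := by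
  have hsum : ∀ x : C.A X, x = ∑ i ∈ Finset.range (2 * X.dim + 1), C.act (p i) x := by
    intro x
    rw [← act_sum, hp.sum, act_dg]
  constructor
  · intro h i hi x hx
    have h1 : C.act (p i) x ∈ ckFil C p j (j + 1) := by
      rw [hp.mem_ckFil]
      refine ⟨act_mem0 C (hp.deg i) hx, fun m hm => ?_⟩
      rw [← C.act_comp, hp.orth i m (by omega)]
      exact C.act_zero x
    rw [h] at h1
    exact (Submodule.mem_bot ℚ).1 h1
  · intro h
    rw [eq_bot_iff]
    intro x hx
    rw [hp.mem_ckFil] at hx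
    rw [Submodule.mem_bot, hsum x]
    refine Finset.sum_eq_zero fun i _ => ?_
    by_cases hij : i < j
    · exact h i hij x hx.1
    · exact hx.2 i (by omega)

lemma D_iff {p : ℕ → C.A (X.prod X)} (hp : IsCK H X p) (j : ℕ) :
    (∀ x : C.A X, x ∈ ckFil C p j 1 ↔ C.Deg j x ∧ H.cl x = 0) ↔
      ∀ i, 2 * j ≤ i → VanHom H p i j := by
  constructor
  · intro h i hi x hx hx0
    have h1 := (h x).2 ⟨hx, hx0⟩
    rw [hp.mem_ckFil] at h1
    exact h1.2 i (by omega)
  · intro h x
    constructor
    · intro hx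
      rw [hp.mem_ckFil] at hx
      refine ⟨hx.1, ?_⟩
      have h1 : C.act (p (2 * j)) x = 0 := hx.2 (2 * j) (by omega)
      have h2 := congrArg H.cl h1
      rw [cl_act H, map_zero] at h2
      rw [← h2]
      exact (hp.act_self (2 * j) _ (by
        have := H.cl_mem hx.1
        have e : ((2 * j : ℕ) : ℤ) = 2 * (j : ℤ) := by push_cast; ring
        rw [TheoryData.Deg, e]; exact this)).symm
    · rintro ⟨hx, hx0⟩
      rw [hp.mem_ckFil]
      exact ⟨hx, fun i hi => h i (by omega) x hx hx0⟩

end weil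

end Pool.Agent.T2h14.MS
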