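import Pool.Agent.T2h14.MS.Nil

/-!
# Murre's conjectures for all Chow-Kunneth decompositions of varieties satisfying the Lefschetz standard
conjecture and nilpotence
-/

set_option autoImplicit false

open CategoryTheory AlgebraicGeometry

universe u v w

namespace Pool.Agent.T2h14.MS

open Pool.Agent.H914 Pool.Agent.H914.VarClass Pool.Agent.H914.VarClass.Obj Pool.Agent.W492.BB
  Pool.Agent.W550.Corr Pool.Agent.TH133 Pool.Agent.Y107 Pool.Agent.Q73.LS

set_option linter.unusedSectionVars false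

variable {k : Type u} [Field k] {𝒱 : VarClass k}

section weil

variable {C : TheoryData.{u, v, 0} 𝒱 ℚ} [hC : IsChowProj C] {K : Type w} [Field K]
  {H : WeilTheoryData.{u, v, w} C K} [hH : IsWeilProj H] {X Y Z : 𝒱.Obj}

include hC hH

/-- Transfer between two projectors of `X`. -/
theorem corner (hN : NilHom H X) {q : ℕ → C.A (X.prod X)} (hq : IsCK H X q) {i m : ℕ} {e : ℤ}
    {A B : C.A (X.prod X)} (hA : C.Deg ((X.dim : ℤ) + e) A) (hB : C.Deg ((X.dim : ℤ) + -e) B)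
    (hm : (m : ℤ) = i + 2 * e)
    (hid : ∀ x : H.A X, H.Deg i x → H.act (H.cl B) (H.act (H.cl A) x) = x) {j : ℕ} {b : Prop}
    (hv : ∀ j' : ℕ, (j' : ℤ) = j + e → VanP b H q m j') : VanP b H q i j := by
  have hqm : q m ∈ C.gr (X.prod X) ((X.dim : ℤ) + 0) := by rw [add_zero]; exact hq.deg m
  have hE : C.Deg X.dim (C.comp (C.comp A (q m)) B) := by
    have h := comp_mem C (comp_mem C hA hqm) hB
    have e1 : (X.dim : ℤ) + (e + 0 + -e) = X.dim := by ring
    rwa [e1] at h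
  have hEid : ∀ x : H.A X, H.Deg i x →
      H.act (H.cl (C.comp (C.comp A (q m)) B)) x = x := by
    intro x hx
    rw [actH_comp, actH_comp]
    have h1 : H.act (H.cl A) x ∈ H.gr X m := by
      have h5 := H.push_mem (snd X X) (H.mul_mem (H.cl_mem hA) (H.pull_mem (fst X X) hx))
      have e1 : 2 * ((X.dim : ℤ) + e) + i + 2 * ((X.dim : ℤ) -
          ((X.prod X).dim : ℤ)) = m := by rw [dim_prod, hm]; push_cast; ring
      rw [e1] at h5
      exact h5
    rw [hq.act_self m _ h1]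
    exact hid x hx
  obtain ⟨w, hw, hwe⟩ := nil_inv hN hq hE hEid
  intro x hx hx0
  have h2 : C.act (C.comp (C.comp (C.comp (q i) (C.comp (C.comp A (q m)) B)) (q i)) w) x =
      C.act (q i) x := by rw [hwe]
  rw [C.act_comp, C.act_comp, C.act_comp, C.act_comp, C.act_comp] at h2
  have h3 : C.act (q m) (C.act A (C.act (q i) x)) = 0 := by
    have h4 : C.act A (C.act (q i) x) ∈ C.gr X ((j : ℤ) + e) :=
      act_mem' C hA (act_mem0 C (hq.deg i) hx)
    by_cases h0 : (j : ℤ) + e < 0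
    · rw [C.gr_neg _ _ h0, Submodule.mem_bot] at h4
      rw [h4]
      exact act_map0 (H := H) _
    · obtain ⟨j', hj'⟩ := Int.eq_ofNat_of_zero_le (not_lt.1 h0)
      refine hv j' hj'.symm _ (by rw [hj'] at h4; exact h4) fun hb => ?_
      rw [cl_act H, cl_act H, hx0 hb, actH_map0, actH_map0]
  rw [h3] at h2
  simp only [act_map0 (H := H)] at h2
  exact h2.symm

lemma actH_mulCorr (x : C.A X) (y : H.A X) : H.act (H.cl (C.mulCorr x)) y = H.cl x * y := by
  have h1 : H.cl (C.mulCorr x) = H.mulCorr (H.cl x) := by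
    rw [TheoryData.mulCorr, TheoryData.mulCorr]
    exact H.cl_push _ _
  rw [h1]
  exact H.act_mulCorr _ _

lemma mulCorr_mem {D : C.A X} (hD : C.Deg 1 D) (n : ℕ) :
    C.mulCorr (D ^ n) ∈ C.gr (X.prod X) ((X.dim : ℤ) + n) := by
  have hmem : C.mulCorr D ∈ C.gr (X.prod X) ((X.dim : ℤ) + 1) := by
    have h := C.push_mem (Obj.lift (𝟙 X) (𝟙 X)) hD
    have e1 : (1 : ℤ) + 1 * (((X.prod X).dim : ℤ) - (X.dim : ℤ)) = X.dim + 1 := by
      rw [dim_prod]; push_cast; ring
    rwa [e1] at h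
  rw [← mulCorr_pow]
  exact corPow_mem hmem n

variable {D : C.A X}

/-- from the upper half to the lower half -/
lemma up_of_down (hN : NilHom H X) (hD : C.Deg 1 D) (hL : LefschetzStandard H X D)
    {q : ℕ → C.A (X.prod X)} (hq : IsCK H X q) {i : ℕ} (hi : i ≤ X.dim) {j : ℕ} {b : Prop}
    (hv : VanP b H q (2 * X.dim - i) (j + X.dim - i)) : VanP b H q i j := by
  obtain ⟨θ, hθ, h1, -⟩ := hL i hi
  refine corner (H := H) hN hq (A := C.mulCorr (D ^ (X.dim - i))) (B := θ)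
    (e := ((X.dim - i : ℕ) : ℤ)) (m := 2 * X.dim - i) (mulCorr_mem (H := H) hD _) ?_ (by omega) ?_ ?_
  · have e1 : (X.dim : ℤ) + -((X.dim - i : ℕ) : ℤ) = i := by omega
    rw [TheoryData.Deg, e1]; exact hθ
  · intro x hx
    rw [actH_mulCorr]
    exact h1 x hx
  · intro j' hj'
    have e1 : j' = j + X.dim - i := by omega
    rw [e1]; exact hv

/-- from the lower half to the upper half -/
lemma down_of_up (hN : NilHom H X) (hD : C.Deg 1 D) (hL : LefschetzStandard H X D)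
    {q : ℕ → C.A (X.prod X)} (hq : IsCK H X q) {i : ℕ} (hi : X.dim ≤ i) (hi2 : i ≤ 2 * X.dim)
    {j : ℕ} {b : Prop}
    (hv : ∀ j' : ℕ, j' + i = j + X.dim → VanP b H q (2 * X.dim - i) j') : VanP b H q i j := by
  obtain ⟨θ, hθ, -, h2⟩ := hL (2 * X.dim - i) (by omega)
  refine corner (H := H) hN hq (A := θ) (B := C.mulCorr (D ^ (X.dim - (2 * X.dim - i))))
    (e := (X.dim : ℤ) - i) (m := 2 * X.dim - i) ?_ ?_ (by omega) ?_ ?_
  · have e1 : (X.dim : ℤ) + ((X.dim : ℤ) - i) = (2 * X.dim - i : ℕ) := by omega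
    rw [TheoryData.Deg, e1]; exact hθ
  · have h := mulCorr_mem (H := H) hD (X.dim - (2 * X.dim - i))
    have e1 : (X.dim : ℤ) + -((X.dim : ℤ) - i) =
        (X.dim : ℤ) + ((X.dim - (2 * X.dim - i) : ℕ) : ℤ) := by omega
    rw [TheoryData.Deg, e1]; exact h
  · intro x hx
    rw [actH_mulCorr]
    refine h2 x ?_
    have e1 : 2 * (X.dim : ℤ) - ((2 * X.dim - i : ℕ) : ℤ) = i := by omega
    rw [TheoryData.Deg, e1]; exact hx
  · intro j' hj'
    exact hv j' (by omega)

/-- **Duality.** -/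
theorem duality (hN : NilHom H X) (hD : C.Deg 1 D) (hL : LefschetzStandard H X D)
    {q : ℕ → C.A (X.prod X)} (hq : IsCK H X q) {i : ℕ} (hi : X.dim ≤ i) (hi2 : i ≤ 2 * X.dim)
    (j : ℕ) (b : Prop) : VanP b H q i j ↔
      ∀ j' : ℕ, j' + i = j + X.dim → VanP b H q (2 * X.dim - i) j' := by
  constructor
  · intro h j' hj'
    refine up_of_down hN hD hL hq (by omega) ?_
    have e1 : 2 * X.dim - (2 * X.dim - i) = i := by omega
    have e2 : j' + X.dim - (2 * X.dim - i) = j := by omega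
    rw [e1, e2]; exact h
  · exact down_of_up hN hD hL hq hi hi2

/-- The second half of (B). -/
theorem van_small (hN : NilHom H X) (hD : C.Deg 1 D) (hL : LefschetzStandard H X D)
    {q : ℕ → C.A (X.prod X)} (hq : IsCK H X q) {i j : ℕ} (hij : i < j) : Van C q i j := by
  rw [← vanP_false (H := H)]
  by_cases hi : i ≤ X.dim
  · refine up_of_down hN hD hL hq hi fun x hx _ => ?_
    rw [hC.gr_top X _ x hx (by omega)]
    exact C.act_map_zero _
  · intro x hx _
    rw [hC.gr_top X j x hx (by omega)]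
    exact C.act_map_zero _

/-- The criterion. -/
lemma critAll (hN : NilHom H X) (hD : C.Deg 1 D) (hL : LefschetzStandard H X D)
    {q : ℕ → C.A (X.prod X)} (hq : IsCK H X q) (b : Prop) (s : ℕ)
    (hlowq : ∀ i j : ℕ, j ≤ 1 → 2 * j + s ≤ i → VanP b H q i j) (j : ℕ) :
    (∀ i, 2 * j + s ≤ i → VanP b H q i j) ↔
      (∀ k j' : ℕ, 2 ≤ j' → 2 * j' + s ≤ k → k < X.dim → k + j = j' + X.dim →
        VanP b H q k j') ∧
      (2 ≤ j → ∀ i, 2 * j + s ≤ i → i ≤ X.dim → VanP b H q i j) := by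
  constructor
  · intro hv
    refine ⟨fun k j' h2 hk hkd he => ?_, fun h2 i hi hid => hv i hi⟩
    have h1 := hv (2 * X.dim - k) (by omega)
    rw [duality hN hD hL hq (by omega) (by omega)] at h1
    have h2 := h1 j' (by omega)
    have e : 2 * X.dim - (2 * X.dim - k) = k := by omega
    rwa [e] at h2
  · rintro ⟨h1, h2⟩ i hi
    by_cases hj : j ≤ 1
    · exact hlowq i j hj hi
    by_cases hio : 2 * X.dim < i
    · exact vanP_out hq hio
    rcases le_or_gt i X.dim with hid | hid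
    · exact h2 (by omega) i hi hid
    · rw [duality hN hD hL hq (by omega) (by omega)]
      intro j' hj'
      by_cases hj1 : j' ≤ 1
      · exact hlowq _ _ hj1 (by omega)
      · exact h1 _ _ (by omega) (by omega) (by omega) (by omega)

/-- **Murre's conjecture (B) for all Chow-Kunneth decompositions.** -/
theorem all_B (hP : PicardPairs H) (hN : NilHom H X) (hD : C.Deg 1 D)
    (hL : LefschetzStandard H X D) {q : ℕ → C.A (X.prod X)} (hq : IsCK H X q) :
    (∀ j : ℕ, ckFil C q j (j + 1) = ⊥) ∧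
    (∀ j : ℕ, ckFil C q j 0 = C.gr X j ↔
      (∀ k j' : ℕ, 2 ≤ j' → 2 * j' + 1 ≤ k → k < X.dim → k + j = j' + X.dim → Van C q k j') ∧
      (2 ≤ j → ∀ i, 2 * j + 1 ≤ i → i ≤ X.dim → Van C q i j)) ∧
    ((∀ i : ℕ, 5 ≤ i → i ≤ X.dim → SummandOf H X i fun _ c => (i : ℤ) ≤ 2 * c + 4) →
      SatisfiesB C q) := by
  have h1 : ∀ j : ℕ, ckFil C q j (j + 1) = ⊥ := by
    intro j
    rw [F1_iff hq]
    exact fun i hi => van_small hN hD hL hq hi
  have h2 : ∀ j : ℕ, ckFil C q j 0 = C.gr X j ↔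
      (∀ k j' : ℕ, 2 ≤ j' → 2 * j' + 1 ≤ k → k < X.dim → k + j = j' + X.dim → Van C q k j') ∧
      (2 ≤ j → ∀ i, 2 * j + 1 ≤ i → i ≤ X.dim → Van C q i j) := by
    intro j
    rw [F0_iff hq]
    have h := critAll (H := H) hN hD hL hq False 1
      (fun k j' hj' hk x hx _ => low_B0 (picard_of_pairs hP) hq hj' (by omega) hx) j
    simp only [vanP_false] at h
    exact h
  refine ⟨h1, h2, fun hS j => ⟨(h2 j).2 ?_, h1 j⟩⟩
  have key : ∀ i j : ℕ, 2 ≤ j → 2 * j + 1 ≤ i → i ≤ X.dim → Van C q i j := by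
    intro i j hj hij hi
    obtain ⟨n, Z, c, a, b, hg, ha, hb, hid⟩ := hS i (by omega) hi
    refine (kill (j := j) hP hN hq ⟨n, Z, c, a, b, fun s => ?_, ha, hb, hid⟩).1 (by omega)
    have := hg s
    omega
  exact ⟨fun k j' a b c _ => key k j' a b c.le, fun a i b c => key i j a b c⟩

/-- **Murre's conjecture (D) for all Chow-Kunneth decompositions.** -/
theorem all_D (hP : PicardPairs H) (hN : NilHom H X) (hD : C.Deg 1 D)
    (hL : LefschetzStandard H X D) {q : ℕ → C.A (X.prod X)} (hq : IsCK H X q) :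
    (∀ j : ℕ, (∀ x : C.A X, x ∈ ckFil C q j 1 ↔ C.Deg j x ∧ H.cl x = 0) ↔
      (∀ k j' : ℕ, 2 ≤ j' → 2 * j' ≤ k → k < X.dim → k + j = j' + X.dim → VanHom H q k j') ∧
      (2 ≤ j → ∀ i, 2 * j ≤ i → i ≤ X.dim → VanHom H q i j)) ∧
    ((∀ i : ℕ, 4 ≤ i → i ≤ X.dim → SummandOf H X i fun _ c => (i : ℤ) ≤ 2 * c + 3) →
      SatisfiesD H q) := by
  have h2 : ∀ j : ℕ, (∀ x : C.A X, x ∈ ckFil C q j 1 ↔ C.Deg j x ∧ H.cl x = 0) ↔
      (∀ k j' : ℕ, 2 ≤ j' → 2 * j' ≤ k → k < X.dim → k + j = j' + X.dim → VanHom H q k j') ∧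
      (2 ≤ j → ∀ i, 2 * j ≤ i → i ≤ X.dim → VanHom H q i j) := by
    intro j
    rw [D_iff hq]
    have h := critAll (H := H) hN hD hL hq True 0
      (fun k j' hj' hk x hx h0 => low_D (picard_of_pairs hP) hq hj' (by omega) hx (h0 trivial)) j
    simp only [vanP_true, add_zero] at h
    exact h
  refine ⟨h2, fun hS j => (h2 j).2 ?_⟩
  have key : ∀ i j : ℕ, 2 ≤ j → 2 * j ≤ i → i ≤ X.dim → VanHom H q i j := by
    intro i j hj hij hi
    obtain ⟨n, Z, c, a, b, hg, ha, hb, hid⟩ := hS i (by omega) hi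
    refine (kill (j := j) hP hN hq ⟨n, Z, c, a, b, fun s => ?_, ha, hb, hid⟩).2
    have := hg s
    omega
  exact ⟨fun k j' a b c _ => key k j' a b c.le, fun a i b c => key i j a b c⟩

end weil

end Pool.Agent.T2h14.MS
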