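import Pool.Agent.T2h14.MS.Sec

/-!
# The second half of Murre's conjecture (B) and motivic hard Lefschetz

If the Chow-Kunneth decomposition `π` of `Y` satisfies motivic hard Lefschetz, then `π i` acts as zero
on `CH^j(Y)` for `i < j`: the map `L^(dim Y - i)` is injective on `π_i CH^j(Y)`, with values in
`CH^(j + dim Y - i)(Y) = 0`.
-/

set_option autoImplicit false

open CategoryTheory AlgebraicGeometry

universe u v w

namespace Pool.Agent.T2h14.MS

open Pool.Agent.H914 Pool.Agent.H914.VarClass Pool.Agent.H914.VarClass.Obj Pool.Agent.W492.BB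
  Pool.Agent.W550.Corr Pool.Agent.TH133 Pool.Agent.Y107 Pool.Agent.Q73.LS

set_option linter.unusedSectionVars false

variable {k : Type u} [Field k] {𝒱 : VarClass k}

variable {C : TheoryData.{u, v, 0} 𝒱 ℚ} [hC : IsChowProj C] {K : Type w} [Field K]
  {H : WeilTheoryData.{u, v, w} C K} [hH : IsWeilProj H] {X Y : 𝒱.Obj}

include hC hH

lemma van_lt {D : C.A Y} (hD : C.Deg 1 D) {π : ℕ → C.A (Y.prod Y)} (hπ : IsCK H Y π)
    (hM : MotivicLefschetz C (C.mulCorr D) π) {i j : ℕ} (hij : i < j) : Van C π i j := by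
  intro y hy
  by_cases hi : Y.dim < i
  · rw [hC.gr_top Y j y hy (by exact_mod_cast (by omega : Y.dim < j))]
    exact C.act_map_zero _
  have hmem : C.mulCorr D ∈ C.gr (Y.prod Y) ((Y.dim : ℤ) + 1) := by
    have h := C.push_mem (Obj.lift (𝟙 Y) (𝟙 Y)) hD
    have e1 : (1 : ℤ) + 1 * (((Y.prod Y).dim : ℤ) - (Y.dim : ℤ)) = Y.dim + 1 := by
      rw [dim_prod]; push_cast; ring
    rwa [e1] at h
  obtain ⟨g, -, h1, -⟩ := hM.iso i (by omega)
  have h2 : C.act (corPow C (C.mulCorr D) (Y.dim - i)) (C.act (π i) y) = 0 := by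
    have h3 := act_mem' C (corPow_mem hmem (Y.dim - i)) (act_mem0 C (hπ.deg i) hy)
    exact hC.gr_top Y _ _ h3 (by omega)
  rw [← h1, C.act_comp, C.act_comp, h2]
  exact C.act_map_zero _

/-- **Murre's conjecture (B) for sections**, with the second half in all codimensions. -/
theorem main_B (hP : PicardFaithful H) {D : C.A Y} (hD : C.Deg 1 D) {c : ℚ} (hc : c ≠ 0) {r : ℕ}
    {f : X ⟶ Y} (hr : Y.dim = X.dim + r) (hf : C.push f 1 = c • D ^ r) (hO : OntoBelow H f)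
    {π : ℕ → C.A (Y.prod Y)} (hπ : IsCK H Y π) (hM : MotivicLefschetz C (C.mulCorr D) π) :
    ∃ p, IsCK H X p ∧ PullIso C f π p ∧ ∀ q, IsCK H X q → (q = p ∨ NilHom H X) →
      (∀ j : ℕ, ckFil C q j (j + 1) = ⊥) ∧
      (∀ j : ℕ, ckFil C q j 0 = C.gr X j ↔
        (∀ k j' : ℕ, 2 ≤ j' → 2 * j' < k → k < X.dim → k + j = j' + X.dim → Van C π k j') ∧
        (2 ≤ j → ∀ i, 2 * j < i → i < X.dim → Van C π i j) ∧
        (2 ≤ j → 2 * j < X.dim → Van C q X.dim j)) := by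
  obtain ⟨p, hp, hiso, h⟩ := main (H := H) hP hD hc hr hf hO hπ hM
  refine ⟨p, hp, hiso, fun q hq hqp => ?_⟩
  obtain ⟨h1, h2, -⟩ := h q hq hqp
  exact ⟨fun j => (h2 j).2 fun i hi _ => van_lt (H := H) hD hπ hM hi, h1⟩

end Pool.Agent.T2h14.MS
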