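import Pool.Agent.T2h14.MS.Sec

/-!
# The action of the projectors of all Chow-Kunneth decompositions

`X` is a variety such that the homologically trivial self-correspondences of degree zero are
nilpotent, `q` any Chow-Kunneth decomposition of `X`. If `H^i(X)` is, by algebraic correspondences, a
direct summand of a sum of groups `H^(i - 2 c)(Z)(-c)`, then `q i` acts as zero on `CH^j(X)` for many
`j`.
-/

set_option autoImplicit false

open CategoryTheory AlgebraicGeometry

universe u v w

namespace Pool.Agent.T2h14.MS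

open Pool.Agent.H914 Pool.Agent.H914.VarClass Pool.Agent.H914.VarClass.Obj Pool.Agent.W492.BB
  Pool.Agent.W550.Corr Pool.Agent.TH133 Pool.Agent.Y107 Pool.Agent.Q73.LS

set_option linter.unusedSectionVars false

variable {k : Type u} [Field k] {𝒱 : VarClass k}

section weil

variable {C : TheoryData.{u, v, 0} 𝒱 ℚ} [hC : IsChowProj C] {K : Type w} [Field K]
  {H : WeilTheoryData.{u, v, w} C K} [hH : IsWeilProj H] {X Y Z : 𝒱.Obj}

include hC hH

lemma actH_map0 (Γ : H.A (X.prod Y)) : H.act Γ (0 : H.A X) = 0 := H.act_map_zero Γ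

omit hC hH in
/-- homologically trivial -/
lemma picard_of_pairs (h : PicardPairs H) : PicardFaithful H :=
  fun X γ h1 h2 z h3 h4 => h X X γ h1 h2 z h3 h4

/-- A correspondence which acts as the identity on `H^i(X)` is invertible on the motive `(X, q i)`. -/
theorem nil_inv (hN : NilHom H X) {q : ℕ → C.A (X.prod X)} (hq : IsCK H X q) {i : ℕ}
    {A : C.A (X.prod X)} (hA : C.Deg X.dim A)
    (hid : ∀ x : H.A X, H.Deg i x → H.act (H.cl A) x = x) :
    ∃ w : C.A (X.prod X), C.Deg X.dim w ∧
      C.comp (C.comp (C.comp (q i) A) (q i)) w = q i := by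
  let Q : ℕ → Cor C X := q
  have hQ : IsCK H X Q := hq
  have hQm : ∀ i, Q i ∈ cor0 C X := hQ.deg
  let A' : Cor C X := A
  have hA' : A' ∈ cor0 C X := hA
  have hQQ : Q i * Q i = Q i := by rw [hQ.mul_eq, if_pos rfl]
  let N : Cor C X := Q i - Q i * A' * Q i
  have hNm : N ∈ cor0 C X := (cor0 C X).sub_mem (hQm i)
    ((cor0 C X).mul_mem ((cor0 C X).mul_mem (hQm i) hA') (hQm i))
  have hNQ : N * Q i = N := by
    simp only [N]
    rw [sub_mul, hQQ, mul_assoc (Q i * A'), hQQ]
  have hact : actH C X H N = 0 := by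
    apply ext_gr H
    intro m a ha
    rw [LinearMap.zero_apply]
    simp only [N]
    rw [map_sub, LinearMap.sub_apply, map_mul, map_mul, Module.End.mul_apply,
      Module.End.mul_apply, hQ.actH_eq' i m ha]
    by_cases hm : m = i
    · subst hm
      rw [if_pos rfl]
      have h1 : actH C X H A' a = a := hid a ha
      rw [h1, hQ.actH_eq' i i ha, if_pos rfl, sub_self]
    · rw [if_neg hm, map_zero, map_zero, sub_zero]
  have hcl : H.cl (X := X.prod X) N = 0 := by
    apply hom_zero_of_act H
    intro a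
    have h1 := LinearMap.congr_fun hact a
    exact h1
  obtain ⟨n, hn⟩ := hN N hNm hcl
  have hn' : N ^ n = 0 := by rw [← corPow_eq]; exact hn
  let N0 : cor0 C X := ⟨N, hNm⟩
  have hN0 : IsNilpotent N0 := ⟨n, Subtype.ext (by rw [Subalgebra.coe_pow]; exact hn')⟩
  obtain ⟨w, hw⟩ := hN0.isUnit_one_sub
  have h1 : (((w⁻¹ : (cor0 C X)ˣ) : cor0 C X) : Cor C X) * (1 - N) = 1 := by
    have h2 : ((w⁻¹ : (cor0 C X)ˣ) : cor0 C X) * (1 - N0) = 1 := by
      rw [← hw]; exact w.inv_mul
    exact congrArg Subtype.val h2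
  refine ⟨((w⁻¹ : (cor0 C X)ˣ) : cor0 C X).val, Subtype.property _, ?_⟩
  have h3 : (((w⁻¹ : (cor0 C X)ˣ) : cor0 C X) : Cor C X) * (Q i * (A' * Q i)) = Q i := by
    have h4 : Q i * (A' * Q i) = (1 - N) * Q i := by
      rw [sub_mul, one_mul, hNQ]
      simp only [N]
      rw [mul_assoc]
      abel
    rw [h4, ← mul_assoc, h1, one_mul]
  exact h3

lemma sum_comp_mem {n : ℕ} {Z : Fin n → 𝒱.Obj} {c : Fin n → ℤ} {a : ∀ s, C.A (X.prod (Z s))}
    {b : ∀ s, C.A ((Z s).prod X)} (ha : ∀ s, C.Deg ((X.dim : ℤ) - c s) (a s))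
    (hb : ∀ s, C.Deg (((Z s).dim : ℤ) + c s) (b s)) :
    C.Deg X.dim (∑ s, C.comp (a s) (b s)) := by
  refine Submodule.sum_mem _ fun s _ => ?_
  have h1 : a s ∈ C.gr (X.prod (Z s)) ((X.dim : ℤ) + -c s) := by
    rw [← sub_eq_add_neg]; exact ha s
  have h := comp_mem C h1 (hb s)
  have e : (X.dim : ℤ) + (-c s + c s) = X.dim := by ring
  rwa [e] at h

/-- **The transfer principle.** -/
theorem kill (hP : PicardPairs H) (hN : NilHom H X) {q : ℕ → C.A (X.prod X)} (hq : IsCK H X q)
    {i j : ℕ} (hS : SummandOf H X i fun Z c =>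
      (j : ℤ) ≤ c ∨ (c = (j : ℤ) - 1 ∧ i + 1 ≠ 2 * j) ∨ c < (j : ℤ) - Z.dim) :
    (i ≠ 2 * j → Van C q i j) ∧ VanHom H q i j := by
  obtain ⟨n, Z, c, a, b, hg, ha, hb, hid⟩ := hS
  have hAm := sum_comp_mem (H := H) ha hb
  have hAid : ∀ x : H.A X, H.Deg i x → H.act (H.cl (∑ s, C.comp (a s) (b s))) x = x := by
    intro x hx
    rw [map_sum, act_sum]
    rw [Finset.sum_congr rfl fun s _ => actH_comp H (a s) (b s) x]
    exact hid x hx
  obtain ⟨w, hw, hwe⟩ := nil_inv hN hq hAm hAid
  have key : ∀ x : C.A X, C.Deg j x → H.act (H.cl (q i)) (H.cl x) = 0 →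
      C.act (q i) x = 0 := by
    intro x hx hx0
    -- the classes on the `Z s`
    let z : ∀ s, C.A (Z s) := fun s => C.act (a s) (C.act (q i) x)
    have hz : ∀ s, z s ∈ C.gr (Z s) ((j : ℤ) - c s) := by
      intro s
      have h1 : a s ∈ C.gr (X.prod (Z s)) ((X.dim : ℤ) + -c s) := by
        rw [← sub_eq_add_neg]; exact ha s
      exact act_mem' C h1 (act_mem0 C (hq.deg i) hx)
    have hz0 : ∀ s, H.cl (z s) = 0 := by
      intro s
      change H.cl (C.act (a s) (C.act (q i) x)) = 0
      rw [cl_act H, cl_act H, hx0]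
      exact actH_map0 _
    have hex : C.act (q i) x = C.act w (C.act (q i) (∑ s, C.act (b s) (z s))) := by
      have h1 : C.act (q i) x = C.act w (C.act (q i) (C.act (∑ s, C.comp (a s) (b s))
          (C.act (q i) x))) := by
        have h2 : C.act (C.comp (C.comp (C.comp (q i) (∑ s, C.comp (a s) (b s))) (q i)) w) x =
            C.act (q i) x := by rw [hwe]
        rw [C.act_comp, C.act_comp, C.act_comp] at h2
        exact h2.symm
      rw [act_sum] at h1
      rw [Finset.sum_congr rfl fun s _ => C.act_comp (a s) (b s) (C.act (q i) x)] at h1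
      exact h1
    have hqq : C.act (q i) (C.act (q i) x) = C.act (q i) x := by rw [← C.act_comp, hq.idem]
    -- the sum over all t
    have hzs : ∀ s, z s = ∑ t, C.act (a s) (C.act (q i) (C.act w (C.act (q i)
        (C.act (b t) (z t))))) := by
      intro s
      have h1 : z s = C.act (a s) (C.act (q i) (C.act (q i) x)) := by rw [hqq]
      rw [h1]
      conv_lhs => rw [hex]
      rw [act_map_sum, act_map_sum, act_map_sum, act_map_sum]
    have hother : ∀ t, ¬ (c t = (j : ℤ) - 1 ∧ i + 1 ≠ 2 * j) → z t = 0 := by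
      intro t ht
      rcases hg t with h1 | h1 | h1
      · rcases h1.lt_or_eq with h2 | h2
        · have h3 := hz t
          rw [C.gr_neg _ _ (by omega), Submodule.mem_bot] at h3
          exact h3
        · apply eq_zero_of_deg0 (H := H) _ (hz0 t)
          have h3 := hz t
          rw [← h2, sub_self] at h3
          exact h3
      · exact absurd h1 ht
      · exact hC.gr_top _ _ _ (hz t) (by omega)
    have hall : ∀ s, z s = 0 := by
      intro s
      by_cases hs : c s = (j : ℤ) - 1 ∧ i + 1 ≠ 2 * j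
      swap
      · exact hother s hs
      rw [hzs s]
      refine Finset.sum_eq_zero fun t _ => ?_
      by_cases ht : c t = (j : ℤ) - 1 ∧ i + 1 ≠ 2 * j
      swap
      · rw [hother t ht]
        simp only [act_map0 (H := H)]
      have h1 : a s ∈ C.gr (X.prod (Z s)) ((X.dim : ℤ) + -c s) := by
        rw [← sub_eq_add_neg]; exact ha s
      have hq0 : q i ∈ C.gr (X.prod X) ((X.dim : ℤ) + 0) := by rw [add_zero]; exact hq.deg i
      have hw0 : w ∈ C.gr (X.prod X) ((X.dim : ℤ) + 0) := by rw [add_zero]; exact hw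
      have h2 := comp_mem C (comp_mem C (comp_mem C (comp_mem C (hb t) hq0) hw0) hq0) h1
      have e : ((Z t).dim : ℤ) + (c t + 0 + 0 + 0 + -c s) = (Z t).dim := by
        rw [hs.1, ht.1]; ring
      rw [e] at h2
      have h3 : Kills H (C.comp (C.comp (C.comp (C.comp (b t) (q i)) w) (q i)) (a s)) 1 := by
        intro v hv
        rw [actH_comp, actH_comp, actH_comp, actH_comp]
        have h4 : H.act (H.cl (b t)) v ∈ H.gr X (1 + 2 * c t) := by
          have h5 := H.push_mem (snd (Z t) X) (H.mul_mem (H.cl_mem (hb t))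
            (H.pull_mem (fst (Z t) X) hv))
          have e : 2 * (((Z t).dim : ℤ) + c t) + 1 + 2 * ((X.dim : ℤ) -
              (((Z t).prod X).dim : ℤ)) = 1 + 2 * c t := by rw [dim_prod]; push_cast; ring
          rw [e] at h5
          exact h5
        rw [hq.act_ne i (1 + 2 * c t) _ (by rw [ht.1]; omega) h4]
        simp only [actH_map0]
      have h4 : C.Deg 1 (z t) := by
        have h5 := hz t
        have e : (j : ℤ) - c t = 1 := by rw [ht.1]; ring
        rw [e] at h5
        exact h5
      have h5 := hP _ _ _ h2 h3 (z t) h4 (hz0 t)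
      rw [C.act_comp, C.act_comp, C.act_comp, C.act_comp] at h5
      exact h5
    rw [hex]
    rw [Finset.sum_eq_zero fun s _ => by rw [hall s]; exact act_map0 (H := H) _]
    rw [act_map0 (H := H), act_map0 (H := H)]
  refine ⟨fun hij x hx => key x hx ?_, fun x hx hx0 => key x hx ?_⟩
  · exact hq.act_ne i (2 * j) _ (by omega) (H.cl_mem hx)
  · rw [hx0]
    exact actH_map0 _

end weil

end Pool.Agent.T2h14.MS
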