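import Pool.Agent.T2h14.MS.Conj

/-!
# The action of the projectors of a Lefschetz section on the Chow groups

`f : X ⟶ Y` is a Lefschetz section (or cover), `π` the Chow-Kunneth decomposition of `Y`, `p = pr f ν`
that of `X`, `d = dim X`. The `i`-th projector of `X` acts as zero on `CH^j(X)` if and only if

* (`i < d`) the `i`-th projector of `Y` acts as zero on `CH^j(Y)`;
* (`i > d`) the projector of `Y` with index `2 d - i` acts as zero on `CH^(j + d - i)(Y)`;

and the same for homologically trivial cycles.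
-/

set_option autoImplicit false

open CategoryTheory AlgebraicGeometry

universe u v w

namespace Pool.Agent.T2h14.MS

open Pool.Agent.H914 Pool.Agent.H914.VarClass Pool.Agent.H914.VarClass.Obj Pool.Agent.W492.BB
  Pool.Agent.W550.Corr Pool.Agent.TH133 Pool.Agent.Y107 Pool.Agent.Q73.LS

set_option linter.unusedSectionVars false

variable {k : Type u} [Field k] {𝒱 : VarClass k}

/-- `p i` acts as zero on the cycles of codimension `j` (if `b`: which are homologically trivial) -/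
def VanP (b : Prop) {C : TheoryData.{u, v, 0} 𝒱 ℚ} {K : Type w} [Field K]
    (H : WeilTheoryData.{u, v, w} C K) {X : 𝒱.Obj} (p : ℕ → C.A (X.prod X)) (i j : ℕ) : Prop :=
  ∀ x : C.A X, C.Deg j x → (b → H.cl x = 0) → C.act (p i) x = 0

section weil

variable {C : TheoryData.{u, v, 0} 𝒱 ℚ} [hC : IsChowProj C] {K : Type w} [Field K]
  {H : WeilTheoryData.{u, v, w} C K} [hH : IsWeilProj H] {X Y Z : 𝒱.Obj}

include hC hH

omit hC hH in
lemma vanP_false {p : ℕ → C.A (X.prod X)} {i j : ℕ} : VanP False H p i j ↔ Van C p i j :=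
  ⟨fun h x hx => h x hx fun hf => hf.elim, fun h x hx _ => h x hx⟩

omit hC hH in
lemma vanP_true {p : ℕ → C.A (X.prod X)} {i j : ℕ} : VanP True H p i j ↔ VanHom H p i j :=
  ⟨fun h x hx h0 => h x hx fun _ => h0, fun h x hx h0 => h x hx (h0 trivial)⟩

lemma vanP_of_nil {b : Prop} (hb : b = True ∨ b = False) (hN : NilHom H X)
    {p q : ℕ → C.A (X.prod X)} (hp : IsCK H X p) (hq : IsCK H X q) {i j : ℕ}
    (h : VanP b H p i j) : VanP b H q i j := by
  rcases hb with rfl | rfl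
  · rw [vanP_true] at h ⊢
    exact vanHom_of_nil hN hp hq h
  · rw [vanP_false] at h ⊢
    exact van_of_nil hN hp hq h

lemma vanP_out {b : Prop} {p : ℕ → C.A (X.prod X)} (hp : IsCK H X p) {i j : ℕ}
    (hi : 2 * X.dim < i) : VanP b H p i j := by
  intro x _ _
  rw [hp.out i hi]
  exact C.act_zero x

variable {f : X ⟶ Y} {r : ℕ} {π ν : ℕ → C.A (Y.prod Y)}

omit hH in
lemma act_smul' (q : ℚ) (Γ : C.A (X.prod Y)) (x : C.A X) :
    C.act (q • Γ) x = q • C.act Γ x := by
  simp only [← actB_apply, map_smul, LinearMap.smul_apply]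

omit hH in
lemma act_pp (f : X ⟶ Y) (y : C.A Y) : C.act (pp C f) y = C.push f (C.pull f y) := by
  rw [pp, C.act_comp, C.act_cograph, C.act_graph]

omit hH in
/-- degrees below the middle -/
lemma low_conv {p : ℕ → C.A (X.prod X)} (hiso : PullIso C f π p) {i : ℕ} (hi : i < X.dim)
    {y : C.A Y} (h : C.act (p i) (C.pull f y) = 0) : C.act (π i) y = 0 := by
  obtain ⟨h1, g, -, h2, -⟩ := hiso i hi
  have h3 : C.pull f (C.act (π i) y) = 0 := by
    rw [← h, ← C.act_cograph f (C.act (π i) y), ← C.act_comp, h1, C.act_comp, C.act_cograph]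
  rw [← h2, C.act_comp, C.act_comp, C.act_cograph, h3, C.act_map_zero]

omit hH in
/-- degrees above the middle -/
lemma high_conv {D : C.A Y} {c : ℚ} (hc : c ≠ 0) (hr : Y.dim = X.dim + r)
    (hf : C.push f 1 = c • D ^ r) (hM : MotivicLefschetz C (C.mulCorr D) π)
    (hidem : ∀ i, C.comp (π i) (π i) = π i) (h : PartInv C f r π ν) {i : ℕ}
    (hi : i ≤ 2 * X.dim) (hin : X.dim < i) {y : C.A Y}
    (h0 : C.act (sand f (ν i)) (C.pull f (C.act (corPow C (C.mulCorr D) (i - X.dim))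
      (C.act (π (2 * X.dim - i)) y))) = 0) : C.act (π (2 * X.dim - i)) y = 0 := by
  obtain ⟨n, hn⟩ : ∃ n, n = 2 * X.dim - i := ⟨_, rfl⟩
  rw [← hn] at h0 ⊢
  set P : ℕ → C.A (Y.prod Y) := corPow C (C.mulCorr D) with hP
  obtain ⟨w, hw⟩ : ∃ w, w = C.act (π n) y := ⟨_, rfl⟩
  rw [← hw] at h0 ⊢
  have hww : C.act (π n) w = w := by rw [hw, ← C.act_comp, hidem]
  -- apply the push-forward
  have h1 : C.act (π (i + 2 * r)) (C.act (pp C f) (C.act (P (i - X.dim)) w)) = 0 := by
    rw [← h.high i hi hin, C.act_comp, act_pp f (C.act (ν i) _), act_pp f (C.act (P _) w)]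
    rw [act_sand] at h0
    rw [h0, map_zero]
  have h2 : C.act (pp C f) (C.act (P (i - X.dim)) w) = c • C.act (P (i - X.dim + r)) w := by
    rw [pp_of_push hf, act_smul', ← C.act_comp, ← corPow_add]
  rw [h2, act_map_smul, ← C.act_comp] at h1
  have h3 : i + 2 * r = n + 2 * (i - X.dim + r) := by omega
  rw [h3, ← homog_pow hM.homogeneous, C.act_comp, hww] at h1
  have h4 : C.act (P (i - X.dim + r)) w = 0 := by
    have h5 := congrArg (fun z => c⁻¹ • z) h1
    simpa only [smul_smul, inv_mul_cancel₀ hc, one_smul, smul_zero] using h5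
  obtain ⟨g, -, h6, -⟩ := hM.iso n (by omega)
  have h7 : Y.dim - n = i - X.dim + r := by omega
  rw [h7] at h6
  rw [← hww, ← h6, C.act_comp, C.act_comp, hww, h4, C.act_map_zero]

/-- **Degrees below the middle.** -/
lemma low_iff (hr : Y.dim = X.dim + r) (hπ : IsCK H Y π) (h : PartInv C f r π ν)
    (hL : ∀ i, (C.comp (π i) (pp C f)) = (C.comp (pp C f) (π (i + 2 * r)))) {i : ℕ}
    (hi : i < X.dim) (j : ℕ) (b : Prop) :
    VanP b H (pr f ν) i j ↔ VanP b H π i j := by
  constructor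
  · intro hv y hy hy0
    refine low_conv (pullIso_pr hr h hL fun i j hij => hπ.orth i j hij) hi
      (hv _ (C.pull_mem f hy) fun hb => ?_)
    rw [H.cl_pull, hy0 hb, map_zero]
  · intro hv x hx hx0
    rw [pr_of f ν (by omega) (by omega)]
    exact act_low (H := H) hr h (by omega) (by omega) hx fun y hy hy0 =>
      hv y hy fun hb => hy0 (hx0 hb)

/-- **Degrees above the middle.** -/
lemma high_iff {D : C.A Y} (hD : C.Deg 1 D) {c : ℚ} (hc : c ≠ 0) (hr : Y.dim = X.dim + r)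
    (hf : C.push f 1 = c • D ^ r) (hπ : IsCK H Y π) (hM : MotivicLefschetz C (C.mulCorr D) π)
    (h : PartInv C f r π ν)
    (hg : ∀ i ≤ 2 * X.dim, X.dim < i → ∃ g : C.A (Y.prod Y), C.Deg (2 * X.dim - i : ℕ) g ∧
        (C.comp (C.comp (C.comp (π (i + 2 * r)) g) (π (2 * X.dim - i)))
          (corPow C (C.mulCorr D) (i + r - X.dim))) = π (i + 2 * r))
    {i : ℕ} (hi : i ≤ 2 * X.dim) (hin : X.dim < i) (j : ℕ) (b : Prop) :
    VanP b H (pr f ν) i j ↔
      ∀ j' : ℕ, j' + i = j + X.dim → VanP b H π (2 * X.dim - i) j' := by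
  have hmem : C.mulCorr D ∈ C.gr (Y.prod Y) ((Y.dim : ℤ) + 1) := by
    have h := C.push_mem (Obj.lift (𝟙 Y) (𝟙 Y)) hD
    have e1 : (1 : ℤ) + 1 * (((Y.prod Y).dim : ℤ) - (Y.dim : ℤ)) = Y.dim + 1 := by
      rw [dim_prod]; push_cast; ring
    rwa [e1] at h
  constructor
  · intro hv j' hj' y hy hy0
    refine high_conv hc hr hf hM hπ.idem h hi hin ?_
    have h1 := hv (C.pull f (C.act (corPow C (C.mulCorr D) (i - X.dim))
      (C.act (π (2 * X.dim - i)) y))) ?_ ?_
    · rwa [pr_of f ν hi (by omega)] at h1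
    · apply C.pull_mem
      have h2 := act_mem' C (corPow_mem hmem (i - X.dim))
        (act_mem0 C (hπ.deg (2 * X.dim - i)) hy)
      have e : (j' : ℤ) + ((i - X.dim : ℕ) : ℤ) = j := by omega
      rwa [e] at h2
    · intro hb
      rw [H.cl_pull, cl_act H, cl_act H, hy0 hb]
      have h3 : ∀ (Z W : 𝒱.Obj) (Γ : H.A (Z.prod W)), H.act Γ (0 : H.A Z) = 0 :=
        fun Z W Γ => H.act_map_zero Γ
      rw [h3, h3, map_zero]
  · intro hv x hx hx0
    rw [pr_of f ν hi (by omega)]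
    obtain ⟨g, hg1, hg2⟩ := hg i hi hin
    refine act_high (H := H) hr h hi hin hg1 hg2 hπ.deg hx fun y hy hy0 => ?_
    by_cases h0 : (j : ℤ) + X.dim - i < 0
    · rw [C.gr_neg Y _ h0, Submodule.mem_bot] at hy
      rw [hy]; exact C.act_map_zero _
    · obtain ⟨j', hj'⟩ := Int.eq_ofNat_of_zero_le (not_lt.1 h0)
      rw [hj'] at hy
      exact hv j' (by omega) y hy fun hb => hy0 (hx0 hb)

/-- **The criterion.** -/
lemma crit {D : C.A Y} (hD : C.Deg 1 D) {c : ℚ} (hc : c ≠ 0) (hr : Y.dim = X.dim + r)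
    (hf : C.push f 1 = c • D ^ r) (hπ : IsCK H Y π) (hM : MotivicLefschetz C (C.mulCorr D) π)
    (h : PartInv C f r π ν)
    (hL : ∀ i, (C.comp (π i) (pp C f)) = (C.comp (pp C f) (π (i + 2 * r))))
    (hg : ∀ i ≤ 2 * X.dim, X.dim < i → ∃ g : C.A (Y.prod Y), C.Deg (2 * X.dim - i : ℕ) g ∧
        (C.comp (C.comp (C.comp (π (i + 2 * r)) g) (π (2 * X.dim - i)))
          (corPow C (C.mulCorr D) (i + r - X.dim))) = π (i + 2 * r))
    (b : Prop) (s : ℕ) {q : ℕ → C.A (X.prod X)} (hq : IsCK H X q)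
    (hpq : ∀ i j, VanP b H (pr f ν) i j ↔ VanP b H q i j)
    (hlow : ∀ k j' : ℕ, j' ≤ 1 → 2 * j' + s ≤ k → VanP b H π k j')
    (hlowq : ∀ i j : ℕ, j ≤ 1 → 2 * j + s ≤ i → VanP b H q i j) (j : ℕ) :
    (∀ i, 2 * j + s ≤ i → VanP b H q i j) ↔
      (∀ k j' : ℕ, 2 ≤ j' → 2 * j' + s ≤ k → k < X.dim → k + j = j' + X.dim →
        VanP b H π k j') ∧
      (2 ≤ j → ∀ i, 2 * j + s ≤ i → i < X.dim → VanP b H π i j) ∧
      (2 ≤ j → 2 * j + s ≤ X.dim → VanP b H q X.dim j) := by
  constructor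
  · intro hv
    refine ⟨fun k j' h2 hk hkd he => ?_, fun h2 i hi hid => ?_, fun h2 hd => hv _ hd⟩
    · have h1 := (hpq (2 * X.dim - k) j).2 (hv (2 * X.dim - k) (by omega))
      rw [high_iff (H := H) hD hc hr hf hπ hM h hg (by omega) (by omega)] at h1
      have h2 := h1 j' (by omega)
      have e : 2 * X.dim - (2 * X.dim - k) = k := by omega
      rwa [e] at h2
    · rw [← low_iff (H := H) hr hπ h hL hid]
      exact (hpq i j).2 (hv i hi)
  · rintro ⟨h1, h2, h3⟩ i hi
    by_cases hj : j ≤ 1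
    · exact hlowq i j hj hi
    by_cases hio : 2 * X.dim < i
    · exact vanP_out hq hio
    rcases lt_trichotomy i X.dim with hid | hid | hid
    · rw [← hpq, low_iff (H := H) hr hπ h hL hid]
      exact h2 (by omega) i hi hid
    · subst hid
      exact h3 (by omega) hi
    · rw [← hpq, high_iff (H := H) hD hc hr hf hπ hM h hg (by omega) hid]
      intro j' hj'
      by_cases hj1 : j' ≤ 1
      · exact hlow _ _ hj1 (by omega)
      · exact h1 _ _ (by omega) (by omega) (by omega) (by omega)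

/-- **Murre's conjectures (B) and (D) for sections.** -/
theorem main (hP : PicardFaithful H) {D : C.A Y} (hD : C.Deg 1 D) {c : ℚ} (hc : c ≠ 0)
    (hr : Y.dim = X.dim + r) (hf : C.push f 1 = c • D ^ r) (hO : OntoBelow H f)
    (hπ : IsCK H Y π) (hM : MotivicLefschetz C (C.mulCorr D) π) :
    ∃ p, IsCK H X p ∧ PullIso C f π p ∧ ∀ q, IsCK H X q → (q = p ∨ NilHom H X) →
      (∀ j : ℕ, ckFil C q j 0 = C.gr X j ↔
        (∀ k j' : ℕ, 2 ≤ j' → 2 * j' + 1 ≤ k → k < X.dim → k + j = j' + X.dim →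
          Van C π k j') ∧
        (2 ≤ j → ∀ i, 2 * j + 1 ≤ i → i < X.dim → Van C π i j) ∧
        (2 ≤ j → 2 * j + 1 ≤ X.dim → Van C q X.dim j)) ∧
      (∀ j : ℕ, ckFil C q j (j + 1) = ⊥ ↔ ∀ i, i < j → j ≤ X.dim → Van C π i j) ∧
      (∀ j : ℕ, (∀ x : C.A X, x ∈ ckFil C q j 1 ↔ C.Deg j x ∧ H.cl x = 0) ↔
        (∀ k j' : ℕ, 2 ≤ j' → 2 * j' ≤ k → k < X.dim → k + j = j' + X.dim →
          VanHom H π k j') ∧
        (2 ≤ j → ∀ i, 2 * j ≤ i → i < X.dim → VanHom H π i j) ∧
        (2 ≤ j → 2 * j ≤ X.dim → VanHom H q X.dim j)) := by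
  obtain ⟨ν, hν, hL, hg⟩ := exists_partInv hD hc hr hf hπ hM
  have hp := isCK_pr hr hπ hO hν hL
  refine ⟨pr f ν, hp, pullIso_pr hr hν hL fun i j hij => hπ.orth i j hij, fun q hq hqp => ?_⟩
  have hpq : ∀ b : Prop, b = True ∨ b = False → ∀ i j,
      VanP b H (pr f ν) i j ↔ VanP b H q i j := by
    intro b hb i j
    rcases hqp with rfl | hN
    · rfl
    · exact ⟨vanP_of_nil hb hN hp hq, vanP_of_nil hb hN hq hp⟩
  refine ⟨fun j => ?_, fun j => ?_, fun j => ?_⟩
  · rw [F0_iff hq]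
    have h1 := crit (H := H) hD hc hr hf hπ hM hν hL hg False 1 hq (hpq _ (Or.inr rfl))
      (fun k j' hj' hk x hx _ => low_B0 hP hπ hj' (by omega) hx)
      (fun k j' hj' hk x hx _ => low_B0 hP hq hj' (by omega) hx) j
    simp only [vanP_false] at h1
    exact h1
  · rw [F1_iff hq]
    have h1 : ∀ i j : ℕ, Van C (pr f ν) i j ↔ Van C q i j := by
      intro i j
      have := hpq _ (Or.inr rfl) i j
      rwa [vanP_false, vanP_false] at this
    constructor
    · intro h i hi hj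
      have h2 := (h1 i j).2 (h i hi)
      have h3 := low_iff (H := H) hr hπ hν hL (i := i) (by omega) j False
      rw [vanP_false, vanP_false] at h3
      exact h3.1 h2
    · intro h i hi
      by_cases hj : j ≤ X.dim
      · rw [← h1]
        have h3 := low_iff (H := H) hr hπ hν hL (i := i) (by omega) j False
        rw [vanP_false, vanP_false] at h3
        exact h3.2 (h i hi hj)
      · intro x hx
        rw [hC.gr_top X j x hx (by exact_mod_cast not_le.1 hj)]
        exact C.act_map_zero _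
  · rw [D_iff hq]
    have h1 := crit (H := H) hD hc hr hf hπ hM hν hL hg True 0 hq (hpq _ (Or.inl rfl))
      (fun k j' hj' hk x hx h0 => low_D hP hπ hj' (by omega) hx (h0 trivial))
      (fun k j' hj' hk x hx h0 => low_D hP hq hj' (by omega) hx (h0 trivial)) j
    simp only [vanP_true, add_zero] at h1
    exact h1

end weil

end Pool.Agent.T2h14.MS
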